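import Pool.Agent.H97.PR.Targets

/-!
Resolution over parities at the scale of SETH (MP_c62aed_lc): the size of the composed formula
(CMA).
-/

set_option autoImplicit false

namespace Pool.Agent.H86.PRY

open Finset Pool.Agent.H97.PR

/-- the variables in the blocks of the clause `c` -/
def iv {n N k m : ℕ} (blk : Fin n → Fin N) (F : Pool.Agent.H97.RK.Fml N k m) (c : Fin m) :
    Finset (Fin n) :=
  univ.filter fun i => blk i ∈ Pool.Agent.H97.RK.vs (Pool.Agent.H97.RK.cls F c)

theorem vs_card {N k m : ℕ} (F : Pool.Agent.H97.RK.Fml N k m) (c : Fin m) :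
    (Pool.Agent.H97.RK.vs (Pool.Agent.H97.RK.cls F c)).card ≤ k := by
  unfold Pool.Agent.H97.RK.vs Pool.Agent.H97.RK.cls
  refine card_image_le.trans (card_image_le.trans ?_)
  simp

theorem iv_card {n N k m : ℕ} (blk : Fin n → Fin N) (F : Pool.Agent.H97.RK.Fml N k m)
    (c : Fin m) (B : ℕ) (hB : ∀ v, (univ.filter fun i => blk i = v).card ≤ B) :
    (iv blk F c).card ≤ B * k := by
  have h1 : iv blk F c ⊆ (Pool.Agent.H97.RK.vs (Pool.Agent.H97.RK.cls F c)).biUnion
      (fun v => univ.filter fun i => blk i = v) := by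
    intro i hi
    unfold iv at hi
    rw [mem_filter] at hi
    rw [mem_biUnion]
    exact ⟨blk i, hi.2, by simp⟩
  refine (card_le_card h1).trans (card_biUnion_le.trans ?_)
  refine (sum_le_card_nsmul _ _ B fun v _ => hB v).trans ?_
  rw [smul_eq_mul, mul_comm]
  exact Nat.mul_le_mul_left _ (vs_card F c)

theorem pf_CMA : T_CMA := by
  classical
  intro n N k m blk g F B hB
  refine ⟨?_, ?_⟩
  · intro C hC
    unfold Pool.Agent.H97.PR.cmp at hC
    rw [mem_image] at hC
    obtain ⟨p, -, rfl⟩ := hC
    unfold ccl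
    exact card_image_le.trans (iv_card blk F p.1 B hB)
  · have h1 : Pool.Agent.H97.PR.cmp F g ⊆ (univ : Finset (Fin m)).biUnion (fun c =>
        (iv blk F c).powerset.image fun P =>
          (iv blk F c).image fun i => (i, decide (i ∉ P))) := by
      intro C hC
      unfold Pool.Agent.H97.PR.cmp at hC
      rw [mem_image] at hC
      obtain ⟨p, -, rfl⟩ := hC
      rw [mem_biUnion]
      refine ⟨p.1, mem_univ _, ?_⟩
      rw [mem_image]
      refine ⟨(iv blk F p.1).filter fun i => p.2 i = true,
        mem_powerset.2 (filter_subset _ _), ?_⟩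
      unfold ccl
      refine image_congr ?_
      intro i hi
      have hi' : i ∈ iv blk F p.1 := hi
      show (i, decide (i ∉ (iv blk F p.1).filter fun i => p.2 i = true)) = (i, !(p.2 i))
      cases h : p.2 i <;> simp [hi', h]
    refine (card_le_card h1).trans (card_biUnion_le.trans ?_)
    refine (sum_le_card_nsmul _ _ (2 ^ (B * k)) fun c _ => ?_).trans ?_
    · refine card_image_le.trans ?_
      rw [card_powerset]
      exact Nat.pow_le_pow_right (by norm_num) (iv_card blk F c B hB)
    · rw [smul_eq_mul, card_univ, Fintype.card_fin]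

end Pool.Agent.H86.PRY
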